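import Mathlib

/-! Squarefree numbers in residue classes modulo 60. -/

set_option autoImplicit false

namespace Pool.Agent.V7H16.PD

open Finset Filter ArithmeticFunction
open scoped ArithmeticFunction.Moebius ArithmeticFunction.zeta Topology

open scoped Classical

lemma sq_dvd_iff {k n a b : ℕ} (hk : k ≠ 0) (h : b ^ 2 * a = n) (ha : Squarefree a) (hb : b ≠ 0) :
    k ^ 2 ∣ n ↔ k ∣ b := by
  constructor
  · intro h1
    rw [← h] at h1
    rw [← Nat.factorization_le_iff_dvd hk hb]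
    have h2 := (Nat.factorization_le_iff_dvd (pow_ne_zero 2 hk)
      (mul_ne_zero (pow_ne_zero 2 hb) ha.ne_zero)).2 h1
    intro p
    have h3 := h2 p
    rw [Nat.factorization_mul (pow_ne_zero 2 hb) ha.ne_zero, Nat.factorization_pow,
      Nat.factorization_pow] at h3
    simp only [Finsupp.coe_add, Pi.add_apply, Finsupp.coe_smul, Pi.smul_apply, smul_eq_mul] at h3
    have h4 := ha.natFactorization_le_one p
    omega
  · intro h1
    rw [← h]
    exact (pow_dvd_pow_of_dvd h1 2).mul_right _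

lemma sum_mu {n X : ℕ} (hn : n ≠ 0) (hX : n ≤ X) :
    ∑ k ∈ (Icc 1 X).filter (fun k => k ^ 2 ∣ n), (μ k : ℤ) = if Squarefree n then 1 else 0 := by
  obtain ⟨a, b, h, ha⟩ := Nat.sq_mul_squarefree n
  have hb : b ≠ 0 := by
    rintro rfl
    apply hn
    rw [← h]; ring
  have e : (Icc 1 X).filter (fun k => k ^ 2 ∣ n) = b.divisors := by
    ext k
    rw [mem_filter, mem_Icc, Nat.mem_divisors]
    constructor
    · rintro ⟨⟨h1, h2⟩, h3⟩
      exact ⟨(sq_dvd_iff (by omega) h ha hb).1 h3, hb⟩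
    · rintro ⟨h1, h2⟩
      have hk : k ≠ 0 := by
        rintro rfl
        exact hb (Nat.eq_zero_of_zero_dvd h1)
      have h3 : k ^ 2 ∣ n := (sq_dvd_iff hk h ha hb).2 h1
      refine ⟨⟨by omega, ?_⟩, h3⟩
      have h4 := Nat.le_of_dvd (Nat.pos_of_ne_zero hn) h3
      have h5 : k ≤ k ^ 2 := by nlinarith [Nat.pos_of_ne_zero hk]
      omega
  rw [e]
  have h1 : ∑ i ∈ b.divisors, (μ i : ℤ) = (1 : ArithmeticFunction ℤ) b := by
    rw [← moebius_mul_coe_zeta, coe_mul_zeta_apply]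
  rw [h1, one_apply]
  by_cases hb1 : b = 1
  · rw [if_pos hb1, if_pos]
    rw [← h, hb1]
    simpa using ha
  · rw [if_neg hb1, if_neg]
    intro hs
    have := hs b ⟨a, by rw [← h]; ring⟩
    exact hb1 (Nat.isUnit_iff.1 this)

/-- squarefree numbers in a class modulo 60 -/
noncomputable def EE (a X : ℕ) : ℕ := ((Icc 1 X).filter fun n => Squarefree n ∧ n % 60 = a).card

/-- numbers in a class modulo 60 divisible by a square -/
noncomputable def CC (a k X : ℕ) : ℕ := ((Icc 1 X).filter fun n => n % 60 = a ∧ k ^ 2 ∣ n).card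

lemma EE_eq (a X : ℕ) : (EE a X : ℤ) = ∑ k ∈ Icc 1 X, (μ k : ℤ) * CC a k X := by
  have h1 : (EE a X : ℤ) = ∑ n ∈ (Icc 1 X).filter (fun n => n % 60 = a),
      if Squarefree n then (1 : ℤ) else 0 := by
    unfold EE
    rw [sum_boole, filter_filter]
    congr 2
    ext n
    simp only [mem_filter]
    tauto
  have h2 : ∀ n ∈ (Icc 1 X).filter (fun n => n % 60 = a), (if Squarefree n then (1 : ℤ) else 0) =
      ∑ k ∈ Icc 1 X, if k ^ 2 ∣ n then (μ k : ℤ) else 0 := by
    intro n hn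
    rw [mem_filter, mem_Icc] at hn
    rw [← sum_mu (n := n) (X := X) (by omega) hn.1.2, sum_filter]
  rw [h1, sum_congr rfl h2, sum_comm]
  refine sum_congr rfl fun k _ => ?_
  rw [← sum_filter, sum_const, filter_filter, nsmul_eq_mul, mul_comm]
  rfl

lemma CC_zero (a k X : ℕ) (h : X < k) : CC a k X = 0 := by
  unfold CC
  rw [card_eq_zero, filter_eq_empty_iff]
  rintro n hn ⟨-, h2⟩
  rw [mem_Icc] at hn
  have h3 := Nat.le_of_dvd (by omega) h2
  have h4 : k ≤ k ^ 2 := by nlinarith [Nat.zero_le k]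
  omega

lemma CC_le (a k X : ℕ) (hk : k ≠ 0) : CC a k X ≤ X / k ^ 2 := by
  rw [← Nat.card_multiples X (k ^ 2)]
  unfold CC
  apply card_le_card_of_injOn (fun n => n - 1)
  · intro n hn
    rw [mem_coe, mem_filter, mem_Icc] at hn
    rw [mem_coe, mem_filter, mem_range]
    show n - 1 < X ∧ k ^ 2 ∣ n - 1 + 1
    refine ⟨by omega, ?_⟩
    rw [show n - 1 + 1 = n by omega]
    exact hn.2.2
  · intro n hn m hm h
    rw [mem_coe, mem_filter, mem_Icc] at hn hm
    simp only at h
    omega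

lemma CC_bad {a k X p : ℕ} (hp : p ∣ 60) (hp1 : p.Prime) (hpk : p ∣ k) (ha : a.Coprime 60) :
    CC a k X = 0 := by
  unfold CC
  rw [card_eq_zero, filter_eq_empty_iff]
  rintro n - ⟨h1, h2⟩
  have h3 : p ∣ n := (hpk.trans (Dvd.intro_left k (by ring) : k ∣ k ^ 2)).trans h2
  have h4 : p ∣ n % 60 := (Nat.dvd_mod_iff hp).2 h3
  rw [h1] at h4
  have h5 : p ∣ Nat.gcd a 60 := Nat.dvd_gcd h4 hp
  rw [ha] at h5
  exact hp1.one_lt.ne' (Nat.dvd_one.1 h5)

lemma CC_good {a k : ℕ} (hk : k ≠ 0) (hc : k.Coprime 60) (ha : a < 60) (X : ℕ) :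
    |(CC a k X : ℝ) - X / (60 * k ^ 2 : ℝ)| ≤ 3 := by
  have hco : Nat.Coprime (k ^ 2) 60 := hc.pow_left 2
  obtain ⟨v, hv1, hv2⟩ := Nat.chineseRemainder hco 0 a
  have hr : 0 < 60 * k ^ 2 := by positivity
  have e1 : ∀ n, (n % 60 = a ∧ k ^ 2 ∣ n) ↔ n ≡ v [MOD 60 * k ^ 2] := by
    intro n
    rw [mul_comm, ← Nat.modEq_and_modEq_iff_modEq_mul hco]
    constructor
    · rintro ⟨h1, h2⟩
      refine ⟨((Nat.modEq_zero_iff_dvd).2 h2).trans hv1.symm, ?_⟩
      refine Nat.ModEq.trans ?_ hv2.symm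
      unfold Nat.ModEq
      rw [h1, Nat.mod_eq_of_lt ha]
    · rintro ⟨h1, h2⟩
      refine ⟨?_, (Nat.modEq_zero_iff_dvd).1 (h1.trans hv1)⟩
      have h3 := h2.trans hv2
      unfold Nat.ModEq at h3
      rw [h3, Nat.mod_eq_of_lt ha]
  have e2 : CC a k X = ((Icc 1 X).filter fun n => n ≡ v [MOD 60 * k ^ 2]).card := by
    unfold CC
    congr 1
    exact filter_congr fun n _ => e1 n
  have e3 := Nat.count_modEq_card (X + 1) hr v
  rw [Nat.count_eq_card_filter_range] at e3
  have e4 : ((Icc 1 X).filter fun n => n ≡ v [MOD 60 * k ^ 2]).card ≤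
      ((range (X + 1)).filter fun n => n ≡ v [MOD 60 * k ^ 2]).card := by
    apply card_le_card
    intro n hn
    rw [mem_filter, mem_Icc] at hn
    rw [mem_filter, mem_range]
    exact ⟨by omega, hn.2⟩
  have e5 : ((range (X + 1)).filter fun n => n ≡ v [MOD 60 * k ^ 2]).card ≤
      ((Icc 1 X).filter fun n => n ≡ v [MOD 60 * k ^ 2]).card + 1 := by
    have : (range (X + 1)).filter (fun n => n ≡ v [MOD 60 * k ^ 2]) ⊆
        insert 0 ((Icc 1 X).filter fun n => n ≡ v [MOD 60 * k ^ 2]) := by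
      intro n hn
      rw [mem_filter, mem_range] at hn
      rw [mem_insert, mem_filter, mem_Icc]
      by_cases h0 : n = 0
      · exact Or.inl h0
      · exact Or.inr ⟨⟨by omega, by omega⟩, hn.2⟩
    exact (card_le_card this).trans (card_insert_le _ _)
  rw [← e2] at e4 e5
  rw [e3] at e4 e5
  have e6 : (X + 1) / (60 * k ^ 2) ≤ CC a k X + 1 := by
    split_ifs at e5 <;> omega
  have e7 : CC a k X ≤ (X + 1) / (60 * k ^ 2) + 1 := by
    split_ifs at e4 <;> omega
  have hrR : (0 : ℝ) < 60 * k ^ 2 := by exact_mod_cast hr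
  have hr1 : (1 : ℝ) ≤ 60 * k ^ 2 := by exact_mod_cast hr
  have f1 : (((X + 1) / (60 * k ^ 2) : ℕ) : ℝ) ≤ (X + 1 : ℝ) / (60 * k ^ 2) := by
    have := Nat.cast_div_le (α := ℝ) (m := X + 1) (n := 60 * k ^ 2)
    push_cast at this
    exact this
  have f2 : (X + 1 : ℝ) / (60 * k ^ 2) < (((X + 1) / (60 * k ^ 2) : ℕ) : ℝ) + 1 := by
    rw [div_lt_iff₀ hrR]
    have := Nat.lt_mul_div_succ (X + 1) hr
    have h2 : ((X + 1 : ℕ) : ℝ) < ((60 * k ^ 2 * ((X + 1) / (60 * k ^ 2) + 1) : ℕ) : ℝ) := by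
      exact_mod_cast this
    push_cast at h2
    linarith
  have f3 : (1 : ℝ) / (60 * k ^ 2) ≤ 1 := by
    rw [div_le_one hrR]; exact hr1
  have f4 : (0 : ℝ) ≤ 1 / (60 * k ^ 2) := by positivity
  have f5 : (X + 1 : ℝ) / (60 * k ^ 2) = X / (60 * k ^ 2) + 1 / (60 * k ^ 2) := by ring
  have e6' : (((X + 1) / (60 * k ^ 2) : ℕ) : ℝ) ≤ CC a k X + 1 := by exact_mod_cast e6
  have e7' : (CC a k X : ℝ) ≤ (((X + 1) / (60 * k ^ 2) : ℕ) : ℝ) + 1 := by exact_mod_cast e7
  rw [abs_le]
  constructor <;> linarith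

/-- the terms of the limit -/
noncomputable def gk (k : ℕ) : ℝ := (μ k : ℤ) * (if k.Coprime 60 then 1 / (60 * k ^ 2 : ℝ) else 0)

/-- the density -/
noncomputable def kap : ℝ := ∑' k, gk k

theorem EE_tendsto {a : ℕ} (ha : a < 60) (hc : a.Coprime 60) :
    Tendsto (fun X : ℕ => (EE a X : ℝ) / X) atTop (𝓝 kap) := by
  have hmu : ∀ k : ℕ, |((μ k : ℤ) : ℝ)| ≤ 1 := by
    intro k
    have : |(μ k : ℤ)| ≤ 1 := abs_moebius_le_one
    exact_mod_cast this
  have key := tendsto_tsum_of_dominated_convergence (𝓕 := atTop)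
    (f := fun (X : ℕ) (k : ℕ) => ((μ k : ℤ) : ℝ) * ((CC a k X : ℝ) / X)) (g := gk)
    (bound := fun k : ℕ => 1 / (k : ℝ) ^ 2) (Real.summable_one_div_nat_pow.2 (by norm_num)) (by
      intro k
      unfold gk
      by_cases hk : k = 0
      · subst hk
        simp
      · by_cases hk15 : k.Coprime 60
        · rw [if_pos hk15]
          apply Tendsto.const_mul
          have h0 : Tendsto (fun X : ℕ => (3 : ℝ) / X) atTop (𝓝 0) :=
            tendsto_const_div_atTop_nhds_zero_nat 3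
          rw [tendsto_iff_norm_sub_tendsto_zero]
          refine squeeze_zero' (Eventually.of_forall fun _ => norm_nonneg _) ?_ h0
          filter_upwards [eventually_gt_atTop 0] with X hX
          have hX0 : (0 : ℝ) < X := by exact_mod_cast hX
          rw [Real.norm_eq_abs]
          have e : (CC a k X : ℝ) / X - 1 / (60 * k ^ 2) =
              ((CC a k X : ℝ) - X / (60 * k ^ 2)) / X := by
            field_simp
          rw [e, abs_div, abs_of_pos hX0]
          gcongr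
          exact CC_good hk hk15 ha X
        · rw [if_neg hk15]
          obtain ⟨p, hp, hpk, hp15⟩ := Nat.Prime.not_coprime_iff_dvd.1 hk15
          have e : ∀ X : ℕ, ((μ k : ℤ) : ℝ) * ((CC a k X : ℝ) / X) = ((μ k : ℤ) : ℝ) * 0 := by
            intro X
            rw [CC_bad hp15 hp hpk hc]
            simp
          simp only [e]
          exact tendsto_const_nhds) (by
      filter_upwards [eventually_gt_atTop 0] with X hX k
      have hX0 : (0 : ℝ) < X := by exact_mod_cast hX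
      by_cases hk : k = 0
      · subst hk
        simp
      · rw [norm_mul, Real.norm_eq_abs, Real.norm_eq_abs]
        have h1 : (CC a k X : ℝ) ≤ X / (k : ℝ) ^ 2 := by
          refine (Nat.cast_le.2 (CC_le a k X hk)).trans ?_
          have := Nat.cast_div_le (α := ℝ) (m := X) (n := k ^ 2)
          push_cast at this
          exact this
        have h2 : |(CC a k X : ℝ) / X| ≤ 1 / (k : ℝ) ^ 2 := by
          rw [abs_of_nonneg (by positivity), div_le_iff₀ hX0]
          refine h1.trans (le_of_eq ?_)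
          ring
        calc |((μ k : ℤ) : ℝ)| * |(CC a k X : ℝ) / X| ≤ 1 * (1 / (k : ℝ) ^ 2) := by
              apply mul_le_mul (hmu k) h2 (abs_nonneg _) (by norm_num)
          _ = 1 / (k : ℝ) ^ 2 := one_mul _)
  refine key.congr fun X => ?_
  rw [tsum_eq_sum (s := Icc 1 X) (by
    intro k hk
    rw [mem_Icc] at hk
    by_cases h0 : k = 0
    · subst h0
      simp
    · rw [CC_zero a k X (by omega)]
      simp)]
  have h := EE_eq a X
  have h' : (EE a X : ℝ) = ∑ k ∈ Icc 1 X, ((μ k : ℤ) : ℝ) * CC a k X := by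
    exact_mod_cast h
  rw [h', sum_div]
  refine sum_congr rfl fun k _ => ?_
  ring

end Pool.Agent.V7H16.PD
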