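import Mathlib
import Pool.Agent.V7H16.PD.Equi
import Pool.Agent.V7H16.PP.Equi2

/-! Squarefree numbers in unions of residue classes modulo 60. -/

set_option autoImplicit false

namespace Pool.Agent.V7H16.PD

open Finset Filter
open scoped Topology
open Pool.Agent.V7H16.PP (NP div_tendsto div_ratio)

open scoped Classical

/-- the reduced residues -/
def RR : Finset ℕ := (range 60).filter fun a => a.Coprime 60

lemma cop60 (m : ℕ) : m.Coprime 30 ↔ m.Coprime 60 := by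
  constructor
  · intro h
    have h2 : m.Coprime 2 := h.coprime_dvd_right ⟨15, by norm_num⟩
    have h3 : m.Coprime (2 * 30) := Nat.Coprime.mul_right h2 h
    exact h3
  · intro h
    exact h.coprime_dvd_right ⟨2, by norm_num⟩

lemma sqf30 {g : ℕ} (hg : g ∈ Nat.divisors 30) : Squarefree g := by
  have h15 : Squarefree 15 := by
    rw [show 15 = 3 * 5 by norm_num, Nat.squarefree_mul_iff]
    exact ⟨by norm_num, Nat.prime_three.squarefree, Nat.prime_five.squarefree⟩
  have h30 : Squarefree 30 := by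
    rw [show 30 = 2 * 15 by norm_num, Nat.squarefree_mul_iff]
    exact ⟨by norm_num, Nat.prime_two.squarefree, h15⟩
  exact h30.squarefree_of_dvd (Nat.dvd_of_mem_divisors hg)

lemma piece (P : ℕ → Prop) (X : ℕ) {g : ℕ} (hg : g ∈ Nat.divisors 30) :
    (((Icc 1 X).filter fun n => Squarefree n ∧ P n).filter fun n => Nat.gcd n 30 = g).card =
      ((Icc 1 (X / g)).filter fun m => (Squarefree m ∧ P (g * m)) ∧ m.Coprime 30).card := by
  have hgd := Nat.dvd_of_mem_divisors hg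
  have hg0 : 0 < g := Nat.pos_of_dvd_of_pos hgd (by norm_num)
  refine Finset.card_nbij' (fun n => n / g) (fun m => g * m) ?_ ?_ ?_ ?_
  · intro n hn
    rw [mem_coe, mem_filter, mem_filter, mem_Icc] at hn
    obtain ⟨⟨⟨h1, h2⟩, sf, hP⟩, hgcd⟩ := hn
    obtain ⟨m, rfl⟩ : g ∣ n := by rw [← hgcd]; exact Nat.gcd_dvd_left n 30
    rw [mem_coe, mem_filter, mem_Icc]
    show (1 ≤ g * m / g ∧ g * m / g ≤ X / g) ∧ (Squarefree (g * m / g) ∧ P (g * (g * m / g))) ∧
      (g * m / g).Coprime 30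
    rw [Nat.mul_div_cancel_left m hg0]
    refine ⟨⟨?_, ?_⟩, ⟨sf.of_mul_right, hP⟩, ?_⟩
    · rcases Nat.eq_zero_or_pos m with h | h
      · rw [h] at h1
        omega
      · exact h
    · rw [Nat.le_div_iff_mul_le hg0, mul_comm]
      exact h2
    · apply Nat.coprime_of_dvd
      intro p hp hpm hp30
      have h3 : p ∣ g := by
        rw [← hgcd]
        exact Nat.dvd_gcd (hpm.mul_left g) hp30
      exact hp.prime.not_isUnit (sf p (mul_dvd_mul h3 hpm))
  · intro m hm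
    rw [mem_coe, mem_filter, mem_Icc] at hm
    obtain ⟨⟨h1, h2⟩, ⟨sf, hP⟩, hc⟩ := hm
    rw [mem_coe, mem_filter, mem_filter, mem_Icc]
    show ((1 ≤ g * m ∧ g * m ≤ X) ∧ Squarefree (g * m) ∧ P (g * m)) ∧ Nat.gcd (g * m) 30 = g
    rw [Nat.le_div_iff_mul_le hg0] at h2
    refine ⟨⟨⟨Nat.mul_pos hg0 h1, by rw [mul_comm]; exact h2⟩, ?_, hP⟩, ?_⟩
    · rw [Nat.squarefree_mul_iff]
      exact ⟨(hc.coprime_dvd_right hgd).symm, sqf30 hg, sf⟩
    · obtain ⟨h, hh⟩ := hgd
      rw [hh, Nat.gcd_mul_left]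
      have : Nat.gcd m h = 1 := hc.coprime_dvd_right ⟨g, by rw [hh]; ring⟩
      rw [this, mul_one]
  · intro n hn
    rw [mem_coe, mem_filter, mem_filter, mem_Icc] at hn
    obtain ⟨⟨⟨h1, h2⟩, sf, hP⟩, hgcd⟩ := hn
    have : g ∣ n := by rw [← hgcd]; exact Nat.gcd_dvd_left n 30
    exact Nat.mul_div_cancel' this
  · intro m hm
    exact Nat.mul_div_cancel_left m hg0

lemma piece2 (P : ℕ → Prop) (hP : ∀ n, P (n % 60) ↔ P n) (g Y : ℕ) :
    ((Icc 1 Y).filter fun m => (Squarefree m ∧ P (g * m)) ∧ m.Coprime 30).card =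
      ∑ a ∈ RR, if P (g * a) then EE a Y else 0 := by
  rw [card_eq_sum_card_fiberwise (f := fun m => m % 60) (t := RR) (by
    intro m hm
    rw [mem_coe, mem_filter] at hm
    rw [mem_coe]
    unfold RR
    rw [mem_filter, mem_range]
    refine ⟨Nat.mod_lt _ (by norm_num), ?_⟩
    show Nat.gcd (m % 60) 60 = 1
    rw [← Nat.gcd_rec, Nat.gcd_comm]
    exact (cop60 m).1 hm.2.2)]
  refine sum_congr rfl fun a ha => ?_
  unfold RR at ha
  rw [mem_filter, mem_range] at ha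
  rw [filter_filter]
  have hmod : ∀ m, m % 60 = a → (P (g * m) ↔ P (g * a)) := by
    intro m hm
    rw [← hP (g * m), ← hP (g * a), Nat.mul_mod, hm]
    rw [Nat.mul_mod g a, Nat.mod_eq_of_lt ha.1]
  have hcop : ∀ m, m % 60 = a → m.Coprime 30 := by
    intro m hm
    refine (cop60 m).2 ?_
    show Nat.gcd m 60 = 1
    rw [Nat.gcd_comm, Nat.gcd_rec, hm]
    exact ha.2
  split_ifs with h
  · unfold EE
    congr 1
    refine filter_congr fun m _ => ?_
    constructor
    · rintro ⟨⟨⟨h1, h2⟩, h3⟩, h4⟩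
      exact ⟨h1, h4⟩
    · rintro ⟨h1, h4⟩
      exact ⟨⟨⟨h1, (hmod m h4).2 h⟩, hcop m h4⟩, h4⟩
  · rw [card_eq_zero, filter_eq_empty_iff]
    rintro m - ⟨⟨⟨h1, h2⟩, h3⟩, h4⟩
    exact h ((hmod m h4).1 h2)

lemma NP_eq (P : ℕ → Prop) (hP : ∀ n, P (n % 60) ↔ P n) (X : ℕ) :
    NP P X = ∑ g ∈ Nat.divisors 30, ∑ a ∈ RR, if P (g * a) then EE a (X / g) else 0 := by
  unfold NP
  rw [card_eq_sum_card_fiberwise (f := fun n => Nat.gcd n 30) (t := Nat.divisors 30) (by
    intro n _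
    rw [mem_coe, Nat.mem_divisors]
    exact ⟨Nat.gcd_dvd_right n 30, by norm_num⟩)]
  refine sum_congr rfl fun g hg => ?_
  rw [piece P X hg, piece2 P hP]

lemma EE_div {a : ℕ} (ha : a < 60) (hc : a.Coprime 60) {g : ℕ} (hg : 0 < g) :
    Tendsto (fun X : ℕ => (EE a (X / g) : ℝ) / X) atTop (𝓝 (kap * (1 / g))) := by
  have h1 := ((EE_tendsto ha hc).comp (div_tendsto hg)).mul (div_ratio hg)
  refine h1.congr' ?_
  filter_upwards [eventually_ge_atTop g] with X hX
  have h2 : 0 < X / g := Nat.div_pos hX hg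
  have h3 : ((X / g : ℕ) : ℝ) ≠ 0 := by exact_mod_cast h2.ne'
  simp only [Function.comp_apply]
  field_simp

theorem NP_tendsto (P : ℕ → Prop) (hP : ∀ n, P (n % 60) ↔ P n) :
    Tendsto (fun X : ℕ => (NP P X : ℝ) / X) atTop
      (𝓝 (∑ g ∈ Nat.divisors 30, ∑ a ∈ RR, if P (g * a) then kap * (1 / g) else 0)) := by
  have h : ∀ X : ℕ, (NP P X : ℝ) / X = ∑ g ∈ Nat.divisors 30, ∑ a ∈ RR,
      if P (g * a) then (EE a (X / g) : ℝ) / X else 0 := by
    intro X
    rw [NP_eq P hP, Nat.cast_sum, sum_div]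
    refine sum_congr rfl fun g _ => ?_
    rw [Nat.cast_sum, sum_div]
    refine sum_congr rfl fun a _ => ?_
    split_ifs
    · rfl
    · simp
  simp only [h]
  refine tendsto_finset_sum _ fun g hg => tendsto_finset_sum _ fun a ha => ?_
  unfold RR at ha
  rw [mem_filter, mem_range] at ha
  have hg0 : 0 < g := Nat.pos_of_mem_divisors hg
  split_ifs
  · exact EE_div ha.1 ha.2 hg0
  · exact tendsto_const_nhds

/-- the limit in the form of a count -/
theorem NP_tendsto' (P : ℕ → Prop) (hP : ∀ n, P (n % 60) ↔ P n) (D : Finset ℕ) (hD : Nat.divisors 30 = D)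
    (N : ℕ → ℕ) (hN : ∀ g ∈ D, (RR.filter fun a => P (g * a)).card = N g) :
    Tendsto (fun X : ℕ => (NP P X : ℝ) / X) atTop (𝓝 (kap * ∑ g ∈ D, (N g : ℝ) / g)) := by
  have h := NP_tendsto P hP
  rw [hD] at h
  convert h using 2
  rw [mul_sum]
  refine sum_congr rfl fun g hg => ?_
  rw [← sum_filter, sum_const, hN g hg, nsmul_eq_mul]
  ring

lemma div30 : Nat.divisors 30 = {1, 2, 3, 5, 6, 10, 15, 30} := by decide

/-- the class of `d`: 3 is not inert and 5 is not split in `ℚ(√-d)` -/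
def Fb (d : ℕ) : Bool := d % 3 != 1 && d % 5 != 1 && d % 5 != 4

end Pool.Agent.V7H16.PD
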