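import Mathlib
import Pool.Agent.V7H16.PD.Equi2

/-! The numbers of the discriminants: limits. -/

set_option autoImplicit false

namespace Pool.Agent.V7H16.PD

open Finset Filter
open scoped Topology
open Pool.Agent.V7H16.PP (NP div_tendsto div_ratio)

/-- the limit for a decidable property -/
theorem NP_lim (b : ℕ → Bool) (hb : ∀ n, b (n % 60) = b n) (N : ℕ → ℕ)
    (hN : ∀ g ∈ ({1, 2, 3, 5, 6, 10, 15, 30} : Finset ℕ), (RR.filter fun a => b (g * a) = true).card = N g) :
    Tendsto (fun X : ℕ => (NP (fun n => b n = true) X : ℝ) / X) atTop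
      (𝓝 (kap * (N 1 + N 2 / 2 + N 3 / 3 + N 5 / 5 + N 6 / 6 + N 10 / 10 + N 15 / 15 + N 30 / 30 : ℝ))) := by
  classical
  have h := NP_tendsto' (fun n => b n = true) (fun n => by rw [hb]) {1, 2, 3, 5, 6, 10, 15, 30} div30 N
    (fun g hg => by
      rw [← hN g hg]
      congr 1
      convert rfl)
  convert h using 2
  rw [sum_insert (by decide), sum_insert (by decide), sum_insert (by decide), sum_insert (by decide),
    sum_insert (by decide), sum_insert (by decide), sum_insert (by decide), sum_singleton]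
  push_cast
  ring

/-- the numbers of the residues -/
def n3 (g : ℕ) : ℕ := if g % 2 = 0 then 0 else 8
/-- the numbers of the residues -/
def nn (g : ℕ) : ℕ := if g % 2 = 0 then 16 else 8

lemma t3 : Tendsto (fun X : ℕ => (NP (fun n => decide (n % 4 = 3) = true) X : ℝ) / X) atTop
    (𝓝 (kap * (64 / 5))) := by
  have h := NP_lim (fun n => decide (n % 4 = 3)) (fun n => by
    have : n % 60 % 4 = n % 4 := by omega
    simp only [this]) n3 (by decide)
  convert h using 2
  norm_num [n3]

lemma tn : Tendsto (fun X : ℕ => (NP (fun n => decide (n % 4 ≠ 3) = true) X : ℝ) / X) atTop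
    (𝓝 (kap * (128 / 5))) := by
  have h := NP_lim (fun n => decide (n % 4 ≠ 3)) (fun n => by
    have : n % 60 % 4 = n % 4 := by omega
    simp only [this]) nn (by decide)
  convert h using 2
  norm_num [nn]

/-- the numbers of the residues -/
def f3 (g : ℕ) : ℕ := if g = 1 then 2 else if g = 3 ∨ g = 5 then 4 else if g = 15 then 8 else 0
/-- the numbers of the residues -/
def fn (g : ℕ) : ℕ := if g = 1 then 2 else if g = 2 ∨ g = 3 ∨ g = 5 then 4 else if g = 30 then 16 else 8

/-- the class of `d` -/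
abbrev B3 (n : ℕ) : Bool := decide (n % 4 = 3 ∧ n % 3 ≠ 1 ∧ n % 5 ≠ 1 ∧ n % 5 ≠ 4)
/-- the class of `d` -/
abbrev Bn (n : ℕ) : Bool := decide (n % 4 ≠ 3 ∧ n % 3 ≠ 1 ∧ n % 5 ≠ 1 ∧ n % 5 ≠ 4)

lemma l3 : Tendsto (fun X : ℕ => (NP (fun n => B3 n = true) X : ℝ) / X) atTop (𝓝 (kap * (14 / 3))) := by
  have h := NP_lim B3 (fun n => by
    have h1 : n % 60 % 4 = n % 4 := by omega
    have h2 : n % 60 % 3 = n % 3 := by omega
    have h3 : n % 60 % 5 = n % 5 := by omega
    simp only [B3, h1, h2, h3]) f3 (by decide)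
  convert h using 2
  norm_num [f3]

lemma ln : Tendsto (fun X : ℕ => (NP (fun n => Bn n = true) X : ℝ) / X) atTop (𝓝 (kap * (28 / 3))) := by
  have h := NP_lim Bn (fun n => by
    have h1 : n % 60 % 4 = n % 4 := by omega
    have h2 : n % 60 % 3 = n % 3 := by omega
    have h3 : n % 60 % 5 = n % 5 := by omega
    simp only [Bn, h1, h2, h3]) fn (by decide)
  convert h using 2
  norm_num [fn]

lemma part {f : ℕ → ℕ} {L : ℝ} (h : Tendsto (fun X : ℕ => (f X : ℝ) / X) atTop (𝓝 L)) {g : ℕ} (hg : 0 < g) :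
    Tendsto (fun X : ℕ => (f (X / g) : ℝ) / X) atTop (𝓝 (L * (1 / g))) := by
  have h1 := (h.comp (div_tendsto hg)).mul (div_ratio hg)
  refine h1.congr' ?_
  filter_upwards [eventually_ge_atTop g] with X hX
  have h2 : 0 < X / g := Nat.div_pos hX hg
  have h3 : ((X / g : ℕ) : ℝ) ≠ 0 := by exact_mod_cast h2.ne'
  simp only [Function.comp_apply]
  field_simp

end Pool.Agent.V7H16.PD
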