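import Mathlib
import Pool.Agent.V7H16.PP.All
import Pool.Agent.V7H16.PD.Lim

/-! The density, ordering by the discriminant. -/

set_option autoImplicit false

namespace Pool.Agent.V7H16.PD

open Finset Filter
open scoped Topology
open Pool.Agent.N916.GB (Gd Ok SS card_eq eta z2 low eta_bounds)
open Pool.Agent.V7H16.PP (Fi KK Fam Fam2 fam_mod fam2_mod fam2_iff WW GG dq sqf_two fi_of NP)

open scoped Classical

/-- the absolute value of the discriminant -/
def dabs (d : ℕ) : ℕ := if d % 4 = 3 then d else 4 * d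

lemma dabs_le {d X : ℕ} : dabs d ≤ X ↔ (d % 4 = 3 ∧ d ≤ X) ∨ (d % 4 ≠ 3 ∧ 4 * d ≤ X) := by
  unfold dabs
  split_ifs with h
  · simp [h]
  · simp [h]

/-- the members of the family, by the discriminant -/
noncomputable def AD (X : ℕ) : Finset ℕ := (Icc 1 X).filter fun d => dabs d ≤ X ∧ Squarefree d ∧ Fam d

lemma card_A (X : ℕ) : ((AD X).card : ℝ) ≤ WW Fam 3 X + WW Fam 1 (X / 4) + WW Fam2 3 (X / 8) +
    WW Fam2 1 (X / 8) := by
  have h : AD X ⊆ ((((Icc 1 X).filter fun n => Squarefree n ∧ n % 4 = 3 ∧ Fam n) ∪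
      ((Icc 1 (X / 4)).filter fun n => Squarefree n ∧ n % 4 = 1 ∧ Fam n)) ∪
      ((Icc 1 (X / 8)).filter fun n => Squarefree n ∧ n % 4 = 3 ∧ Fam2 n).image (2 * ·)) ∪
      ((Icc 1 (X / 8)).filter fun n => Squarefree n ∧ n % 4 = 1 ∧ Fam2 n).image (2 * ·) := by
    intro d hd
    unfold AD at hd
    rw [mem_filter, mem_Icc] at hd
    obtain ⟨⟨h1, h2⟩, hda, sf, hF⟩ := hd
    unfold dabs at hda
    have h4 : d % 4 ≠ 0 := by
      intro h
      have h1 : 2 * 2 ∣ d := by omega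
      exact Nat.prime_two.prime.not_isUnit (sf 2 h1)
    by_cases h3 : d % 4 = 3
    · exact mem_union_left _ (mem_union_left _ (mem_union_left _
        (mem_filter.2 ⟨mem_Icc.2 ⟨h1, h2⟩, sf, h3, hF⟩)))
    · rw [if_neg h3] at hda
      by_cases h5 : d % 4 = 1
      · exact mem_union_left _ (mem_union_left _ (mem_union_right _
          (mem_filter.2 ⟨mem_Icc.2 ⟨h1, by omega⟩, sf, h5, hF⟩)))
      · obtain ⟨n, hn⟩ : 2 ∣ d := by omega
        have sfn : Squarefree n := sf.squarefree_of_dvd ⟨2, by rw [hn]; ring⟩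
        rw [hn, fam2_iff] at hF
        by_cases h6 : n % 4 = 3
        · exact mem_union_left _ (mem_union_right _ (mem_image.2 ⟨n, mem_filter.2
            ⟨mem_Icc.2 ⟨by omega, by omega⟩, sfn, h6, hF⟩, hn.symm⟩))
        · exact mem_union_right _ (mem_image.2 ⟨n, mem_filter.2
            ⟨mem_Icc.2 ⟨by omega, by omega⟩, sfn, by omega, hF⟩, hn.symm⟩)
  have h1 := card_le_card h
  have h2 : (AD X).card ≤ ((Icc 1 X).filter fun n => Squarefree n ∧ n % 4 = 3 ∧ Fam n).card +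
      ((Icc 1 (X / 4)).filter fun n => Squarefree n ∧ n % 4 = 1 ∧ Fam n).card +
      ((Icc 1 (X / 8)).filter fun n => Squarefree n ∧ n % 4 = 3 ∧ Fam2 n).card +
      ((Icc 1 (X / 8)).filter fun n => Squarefree n ∧ n % 4 = 1 ∧ Fam2 n).card := by
    refine h1.trans ((card_union_le _ _).trans ?_)
    refine Nat.add_le_add ((card_union_le _ _).trans ?_) card_image_le
    exact Nat.add_le_add (card_union_le _ _) card_image_le
  unfold WW
  exact_mod_cast h2

lemma card_B (X : ℕ) : GG false 0 0 Fam 3 X + GG true 0 1 Fam 1 (X / 4) + GG true 1 0 Fam2 3 (X / 8) +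
    GG true 1 1 Fam2 1 (X / 8) ≤ (((AD X).filter Fi).card : ℝ) := by
  obtain ⟨P1, hP1⟩ : ∃ P, P = (Icc 1 X).filter fun n => (Squarefree n ∧ n % 4 = 3 ∧ Fam n) ∧
    Gd false 0 0 n.primeFactors := ⟨_, rfl⟩
  obtain ⟨P2, hP2⟩ : ∃ P, P = (Icc 1 (X / 4)).filter fun n => (Squarefree n ∧ n % 4 = 1 ∧ Fam n) ∧
    Gd true 0 1 n.primeFactors := ⟨_, rfl⟩
  obtain ⟨P3, hP3⟩ : ∃ P, P = (Icc 1 (X / 8)).filter fun n => (Squarefree n ∧ n % 4 = 3 ∧ Fam2 n) ∧
    Gd true 1 0 n.primeFactors := ⟨_, rfl⟩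
  obtain ⟨P4, hP4⟩ : ∃ P, P = (Icc 1 (X / 8)).filter fun n => (Squarefree n ∧ n % 4 = 1 ∧ Fam2 n) ∧
    Gd true 1 1 n.primeFactors := ⟨_, rfl⟩
  have m1 : ∀ n ∈ P1, n % 4 = 3 ∧ n ∈ (AD X).filter Fi := by
    intro n hn
    rw [hP1, mem_filter, mem_Icc] at hn
    obtain ⟨h1, ⟨h2, h3, h4⟩, h5⟩ := hn
    refine ⟨h3, mem_filter.2 ⟨mem_filter.2 ⟨mem_Icc.2 h1, dabs_le.2 (by omega), h2, h4⟩, ?_⟩⟩
    exact fi_of h2 (by omega) (Or.inr ⟨rfl, rfl⟩) (Or.inl ⟨rfl, h3⟩) (fun _ => ⟨rfl, rfl⟩)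
      (fun h => absurd h (by decide)) h4 h5
  have m2 : ∀ n ∈ P2, n % 4 = 1 ∧ n ∈ (AD X).filter Fi := by
    intro n hn
    rw [hP2, mem_filter, mem_Icc] at hn
    obtain ⟨h1, ⟨h2, h3, h4⟩, h5⟩ := hn
    refine ⟨h3, mem_filter.2 ⟨mem_filter.2 ⟨mem_Icc.2 ⟨by omega, by omega⟩, dabs_le.2 (by omega), h2, h4⟩, ?_⟩⟩
    exact fi_of h2 (by omega) (Or.inr ⟨rfl, rfl⟩) (Or.inr ⟨rfl, h3⟩)
      (fun h => absurd h (by decide)) (fun _ _ => rfl) h4 h5
  have m3 : ∀ n ∈ P3, n % 4 = 3 ∧ 2 * n ∈ (AD X).filter Fi := by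
    intro n hn
    rw [hP3, mem_filter, mem_Icc] at hn
    obtain ⟨h1, ⟨h2, h3, h4⟩, h5⟩ := hn
    have hF : Fam (2 * n) := (fam2_iff n).2 h4
    refine ⟨h3, mem_filter.2 ⟨mem_filter.2 ⟨mem_Icc.2 ⟨by omega, by omega⟩, dabs_le.2 (by omega),
      sqf_two h2 (by omega), hF⟩, ?_⟩⟩
    exact fi_of h2 (by omega) (Or.inl ⟨rfl, rfl⟩) (Or.inl ⟨rfl, h3⟩)
      (fun h => absurd h (by decide)) (fun _ h => absurd h one_ne_zero) hF h5
  have m4 : ∀ n ∈ P4, n % 4 = 1 ∧ 2 * n ∈ (AD X).filter Fi := by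
    intro n hn
    rw [hP4, mem_filter, mem_Icc] at hn
    obtain ⟨h1, ⟨h2, h3, h4⟩, h5⟩ := hn
    have hF : Fam (2 * n) := (fam2_iff n).2 h4
    refine ⟨h3, mem_filter.2 ⟨mem_filter.2 ⟨mem_Icc.2 ⟨by omega, by omega⟩, dabs_le.2 (by omega),
      sqf_two h2 (by omega), hF⟩, ?_⟩⟩
    exact fi_of h2 (by omega) (Or.inl ⟨rfl, rfl⟩) (Or.inr ⟨rfl, h3⟩)
      (fun h => absurd h (by decide)) (fun _ h => absurd h one_ne_zero) hF h5
  have hinj : Function.Injective (fun n : ℕ => 2 * n) := fun a b h => by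
    have : 2 * a = 2 * b := h
    omega
  have hsub : ((P1 ∪ P2) ∪ P3.image (2 * ·)) ∪ P4.image (2 * ·) ⊆ (AD X).filter Fi := by
    intro d hd
    rw [mem_union, mem_union, mem_union] at hd
    rcases hd with ((h | h) | h) | h
    · exact (m1 d h).2
    · exact (m2 d h).2
    · obtain ⟨n, hn, rfl⟩ := mem_image.1 h
      exact (m3 n hn).2
    · obtain ⟨n, hn, rfl⟩ := mem_image.1 h
      exact (m4 n hn).2
  have d12 : Disjoint P1 P2 := by
    rw [Finset.disjoint_left]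
    intro a h1 h2
    have := (m1 a h1).1
    have := (m2 a h2).1
    omega
  have d3 : Disjoint (P1 ∪ P2) (P3.image (2 * ·)) := by
    rw [Finset.disjoint_left]
    intro a h1 h2
    obtain ⟨n, hn, rfl⟩ := mem_image.1 h2
    have := (m3 n hn).1
    rcases mem_union.1 h1 with h | h
    · have := (m1 _ h).1
      omega
    · have := (m2 _ h).1
      omega
  have d4 : Disjoint ((P1 ∪ P2) ∪ P3.image (2 * ·)) (P4.image (2 * ·)) := by
    rw [Finset.disjoint_left]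
    intro a h1 h2
    obtain ⟨n, hn, rfl⟩ := mem_image.1 h2
    have := (m4 n hn).1
    rcases mem_union.1 h1 with h | h
    · rcases mem_union.1 h with h | h
      · have := (m1 _ h).1
        omega
      · have := (m2 _ h).1
        omega
    · obtain ⟨k, hk, hkn⟩ := mem_image.1 h
      have h3 := (m3 k hk).1
      have h4 : 2 * k = 2 * n := hkn
      omega
  have h := card_le_card hsub
  rw [card_union_of_disjoint d4, card_union_of_disjoint d3, card_union_of_disjoint d12,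
    card_image_of_injective _ hinj, card_image_of_injective _ hinj, hP1, hP2, hP3, hP4] at h
  unfold GG
  exact_mod_cast h

/-- **The density theorem.** -/
theorem main_density (ε : ℝ) (hε : 0 < ε) : ∀ᶠ X : ℕ in atTop,
    (eta - ε) * ((AD X).card : ℝ) ≤ (((AD X).filter Fi).card : ℝ) := by
  have hδ : 0 < ε * (1 / 1920) := by positivity
  obtain ⟨X1, h1⟩ := dq fam_mod (t := false) (r := 0) (s := 0) (fun _ => rfl)
    (fun h => absurd h (by decide)) _ hδ
  obtain ⟨X2, h2⟩ := dq fam_mod (t := true) (r := 0) (s := 1) (fun h => absurd h (by decide))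
    (fun _ => Or.inr one_ne_zero) _ hδ
  obtain ⟨X3, h3⟩ := dq fam2_mod (t := true) (r := 1) (s := 0) (fun _ => rfl)
    (fun _ => Or.inl one_ne_zero) _ hδ
  obtain ⟨X4, h4⟩ := dq fam2_mod (t := true) (r := 1) (s := 1) (fun h => absurd h (by decide))
    (fun _ => Or.inr one_ne_zero) _ hδ
  rw [if_pos rfl] at h1 h3
  rw [if_neg one_ne_zero] at h2 h4
  filter_upwards [eventually_ge_atTop (X1 + 4 * X2 + 8 * X3 + 8 * X4 + 400000)] with X hX
  have k1 := h1 X (by omega)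
  have k2 := h2 (X / 4) (by omega)
  have k3 := h3 (X / 8) (by omega)
  have k4 := h4 (X / 8) (by omega)
  have hA := card_A X
  have hB := card_B X
  have hl : (1 / 480 : ℝ) * X ≤ ((AD X).card : ℝ) := by
    refine (low (a := 23) (by norm_num) (by norm_num) X (by omega)).trans ?_
    refine Nat.cast_le.2 (card_le_card fun n hn => ?_)
    rw [mem_filter] at hn
    unfold AD
    rw [mem_filter]
    have h23 := hn.2.2
    rw [mem_Icc] at hn
    exact ⟨mem_Icc.2 hn.1, dabs_le.2 (by omega), hn.2.1, by unfold Fam; omega⟩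
  have heta : 0 < eta := Pool.Agent.N916.GB.eta_pos
  have hX2 : ((X / 8 : ℕ) : ℝ) ≤ X := by exact_mod_cast Nat.div_le_self X 8
  have hX4 : ((X / 4 : ℕ) : ℝ) ≤ X := by exact_mod_cast Nat.div_le_self X 4
  have e1 : eta * ((AD X).card : ℝ) ≤ eta * (WW Fam 3 X + WW Fam 1 (X / 4) + WW Fam2 3 (X / 8) +
    WW Fam2 1 (X / 8)) := mul_le_mul_of_nonneg_left hA heta.le
  have e2 : ε * (1 / 1920) * ((X / 8 : ℕ) : ℝ) ≤ ε * (1 / 1920) * X :=
    mul_le_mul_of_nonneg_left hX2 hδ.le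
  have e4 : ε * (1 / 1920) * ((X / 4 : ℕ) : ℝ) ≤ ε * (1 / 1920) * X :=
    mul_le_mul_of_nonneg_left hX4 hδ.le
  have e3 : ε * ((1 / 480 : ℝ) * X) ≤ ε * ((AD X).card : ℝ) := mul_le_mul_of_nonneg_left hl hε.le
  nlinarith

end Pool.Agent.V7H16.PD
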