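import Mathlib
import Pool.Agent.V7H16.PD.Dens

/-! The proportion among all imaginary quadratic fields, ordering by the discriminant. -/

set_option autoImplicit false

namespace Pool.Agent.V7H16.PD

open Finset Filter
open Pool.Agent.N916.GB (eta low eta_bounds)
open scoped Topology
open Pool.Agent.V7H16.PP (Fi Fam NP)

open scoped Classical

/-- the squarefree numbers with a property, by the discriminant -/
noncomputable def AG (P : ℕ → Prop) (X : ℕ) : Finset ℕ :=
  (Icc 1 X).filter fun d => dabs d ≤ X ∧ Squarefree d ∧ P d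

lemma mem_AG (P : ℕ → Prop) (X d : ℕ) :
    d ∈ AG P X ↔ (1 ≤ d ∧ d ≤ X) ∧ dabs d ≤ X ∧ Squarefree d ∧ P d := by
  unfold AG
  rw [mem_filter, mem_Icc]

lemma AG_card (P : ℕ → Prop) (X : ℕ) : (AG P X).card =
    NP (fun n => n % 4 = 3 ∧ P n) X + NP (fun n => n % 4 ≠ 3 ∧ P n) (X / 4) := by
  have h := card_filter_add_card_filter_not (s := AG P X) (p := fun n => n % 4 = 3)
  rw [← h]
  unfold NP
  congr 2
  · ext n
    unfold AG
    simp only [mem_filter, mem_Icc, dabs_le]
    constructor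
    · rintro ⟨⟨h1, h2, h3, h4⟩, h5⟩
      exact ⟨h1, h3, h5, h4⟩
    · rintro ⟨h1, h3, h5, h4⟩
      exact ⟨⟨h1, Or.inl ⟨h5, h1.2⟩, h3, h4⟩, h5⟩
  · ext n
    unfold AG
    simp only [mem_filter, mem_Icc, dabs_le]
    constructor
    · rintro ⟨⟨h1, h2, h3, h4⟩, h5⟩
      exact ⟨⟨h1.1, by omega⟩, h3, h5, h4⟩
    · rintro ⟨h1, h3, h5, h4⟩
      exact ⟨⟨⟨h1.1, by omega⟩, Or.inr ⟨h5, by omega⟩, h3, h4⟩, h5⟩

lemma NP_congr {P Q : ℕ → Prop} (h : ∀ n, P n ↔ Q n) : NP P = NP Q := by
  have : P = Q := funext fun n => propext (h n)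
  rw [this]

lemma kap_pos : 0 < kap := by
  have h := EE_tendsto (a := 23) (by norm_num) (by norm_num)
  have h2 : (1 / 480 : ℝ) ≤ kap := by
    refine ge_of_tendsto h ?_
    filter_upwards [eventually_ge_atTop 400000] with X hX
    have hX0 : (0 : ℝ) < X := by
      have : 0 < X := by omega
      exact_mod_cast this
    rw [le_div_iff₀ hX0]
    refine (low (a := 23) (by norm_num) (by norm_num) X hX).trans ?_
    unfold EE
    refine Nat.cast_le.2 (card_le_card fun n hn => ?_)
    rw [mem_filter] at hn ⊢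
    refine ⟨hn.1, hn.2.1, ?_⟩
    have := hn.2.2
    omega
  linarith [show (0 : ℝ) < 1 / 480 by norm_num]

theorem all_tendsto : Tendsto (fun X : ℕ => ((AG (fun _ => True) X).card : ℝ) / X) atTop
    (𝓝 (kap * (96 / 5))) := by
  have h1 := t3
  have h2 := part tn (show 0 < 4 by norm_num)
  rw [NP_congr (Q := fun n => n % 4 = 3 ∧ True) (fun n => by simp)] at h1
  rw [NP_congr (P := fun n => decide (n % 4 ≠ 3) = true) (Q := fun n => n % 4 ≠ 3 ∧ True)
    (fun n => by simp)] at h2
  convert h1.add h2 using 2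
  · rename_i X
    rw [AG_card]
    push_cast
    ring
  · norm_num
    ring

theorem fam_tendsto : Tendsto (fun X : ℕ => ((AG Fam X).card : ℝ) / X) atTop (𝓝 (kap * 7)) := by
  have h1 := l3
  have h2 := part ln (show 0 < 4 by norm_num)
  rw [NP_congr (Q := fun n => n % 4 = 3 ∧ Fam n) (fun n => by simp [B3, Fam])] at h1
  rw [NP_congr (P := fun n => Bn n = true) (Q := fun n => n % 4 ≠ 3 ∧ Fam n)
    (fun n => by simp [Bn, Fam])] at h2
  convert h1.add h2 using 2
  · rename_i X
    rw [AG_card]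
    push_cast
    ring
  · norm_num
    ring

/-- more than a tenth of all -/
theorem main_all : ∀ᶠ X : ℕ in atTop,
    (21 / 200 : ℝ) * ((AG (fun _ => True) X).card : ℝ) ≤ (((AD X).filter Fi).card : ℝ) := by
  have hk := kap_pos
  have e1 := eta_bounds.1
  have h1 := main_density (eta - 0.2887) (by linarith)
  have h2 := all_tendsto
  have h3 := fam_tendsto
  have h4 : ∀ᶠ X : ℕ in atTop, ((AG (fun _ => True) X).card : ℝ) / X < kap * (96 / 5) + kap * (1 / 100) :=
    h2.eventually_lt_const (by linarith [mul_pos hk (show (0 : ℝ) < 1 / 100 by norm_num)])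
  have h5 : ∀ᶠ X : ℕ in atTop, kap * 7 - kap * (1 / 300) < ((AG Fam X).card : ℝ) / X :=
    h3.eventually_const_lt (by linarith [mul_pos hk (show (0 : ℝ) < 1 / 300 by norm_num)])
  filter_upwards [h1, h4, h5, eventually_gt_atTop 0] with X k1 k4 k5 hX
  have hX0 : (0 : ℝ) < X := by exact_mod_cast hX
  rw [div_lt_iff₀ hX0] at k4
  rw [lt_div_iff₀ hX0] at k5
  have hAD : AD X = AG Fam X := rfl
  rw [hAD] at k1 ⊢
  have hkX : 0 < kap * X := mul_pos hk hX0
  have e3 : (0.2887 : ℝ) * ((AG Fam X).card : ℝ) ≤ (((AG Fam X).filter Fi).card : ℝ) := by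
    refine le_trans (le_of_eq ?_) k1
    ring
  refine le_trans ?_ e3
  nlinarith

end Pool.Agent.V7H16.PD
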